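import Pool.Agent.Helper35.CL.StA

/-!
Module LA of project CL (MP_b2fa09_gt): the field of the local density estimate.
-/

set_option autoImplicit false

namespace Pool.Agent.Helper40.CL

open _root_.Pool.Agent.Helper35.CL _root_.Helper32.CL _root_.Helper35.PI _root_.Helper35.PI2
open scoped ContDiff Manifold Topology ENNReal BigOperators
open MeasureTheory Set Filter

/-- the function `(max 0 v)²` has derivative `2 max 0 v` -/
lemma LA_hda (v : ℝ) : HasDerivAt (fun v : ℝ => (max 0 v) ^ 2) (2 * max 0 v) v := by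
  rcases lt_trichotomy v 0 with h | h | h
  · have h1 : (fun v : ℝ => (max 0 v) ^ 2) =ᶠ[𝓝 v] fun _ => (0 : ℝ) := by
      filter_upwards [Iio_mem_nhds h] with w hw
      have hw' : w ≤ 0 := le_of_lt hw
      simp [max_eq_left hw']
    have e : 2 * max 0 v = 0 := by rw [max_eq_left h.le]; ring
    rw [e]
    exact (hasDerivAt_const v (0 : ℝ)).congr_of_eventuallyEq h1
  · subst h
    have e : 2 * max (0 : ℝ) 0 = 0 := by simp
    rw [e, hasDerivAt_iff_isLittleO]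
    have h1 : (fun w : ℝ => (max 0 w) ^ 2 - (max (0 : ℝ) 0) ^ 2 - (w - 0) • (0 : ℝ)) =O[𝓝 0]
        fun w : ℝ => w ^ 2 := by
      refine Asymptotics.IsBigO.of_bound 1 (Eventually.of_forall fun w => ?_)
      have h3 : (max 0 w) ^ 2 ≤ w ^ 2 := by
        rcases le_total 0 w with hw | hw
        · rw [max_eq_right hw]
        · rw [max_eq_left hw]; nlinarith [sq_nonneg w]
      have h4 : (max 0 w) ^ 2 - (max (0 : ℝ) 0) ^ 2 - (w - 0) • (0 : ℝ) = (max 0 w) ^ 2 := by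
        simp
      rw [h4, Real.norm_of_nonneg (sq_nonneg _), Real.norm_of_nonneg (sq_nonneg _)]
      linarith
    have h2 : (fun w : ℝ => w ^ 2) =o[𝓝 0] fun w : ℝ => w :=
      Asymptotics.isLittleO_pow_id (by norm_num)
    have h3 := h1.trans_isLittleO h2
    simpa using h3
  · have h1 : (fun v : ℝ => (max 0 v) ^ 2) =ᶠ[𝓝 v] fun w => w ^ 2 := by
      filter_upwards [Ioi_mem_nhds h] with w hw
      have hw' : 0 ≤ w := le_of_lt hw
      simp [max_eq_right hw']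
    have e : 2 * max 0 v = 2 * v := by rw [max_eq_right h.le]
    rw [e]
    have h2 : HasDerivAt (fun w : ℝ => w ^ 2) (2 * v) v := by
      simpa using hasDerivAt_pow 2 v
    exact h2.congr_of_eventuallyEq h1

lemma LA_cd : ContDiff ℝ 1 (fun v : ℝ => (max 0 v) ^ 2) := by
  rw [contDiff_one_iff_deriv]
  refine ⟨fun v => (LA_hda v).differentiableAt, ?_⟩
  have h : deriv (fun v : ℝ => (max 0 v) ^ 2) = fun v => 2 * max 0 v :=
    funext fun v => (LA_hda v).deriv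
  rw [h]
  exact continuous_const.mul (continuous_const.max continuous_id)

/-- the denominator -/
noncomputable def LAD (ε s : ℝ) : ℝ := s + ε ^ 2 + (max 0 (-s)) ^ 2 / ε ^ 2

/-- the profile -/
noncomputable def LAz (r ε s : ℝ) : ℝ := (max 0 (1 - s / r ^ 2)) ^ 2 / LAD ε s

lemma LAD_pos {ε : ℝ} (hε : 0 < ε) (s : ℝ) : 0 < LAD ε s := by
  unfold LAD
  rcases le_total 0 s with hs | hs
  · have h1 : max 0 (-s) = 0 := max_eq_left (by linarith)
    rw [h1]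
    positivity
  · have h1 : max 0 (-s) = -s := max_eq_right (by linarith)
    rw [h1]
    have h2 : s + ε ^ 2 + (-s) ^ 2 / ε ^ 2 = (s / ε + ε / 2) ^ 2 + 3 / 4 * ε ^ 2 := by
      field_simp
      ring
    rw [h2]
    positivity

lemma LAD_cd {ε : ℝ} : ContDiff ℝ 1 (LAD ε) := by
  unfold LAD
  exact (contDiff_id.add contDiff_const).add
    ((LA_cd.comp (contDiff_neg (F := ℝ) (𝕜 := ℝ))).div_const _)

lemma LAD_hd {ε : ℝ} {s : ℝ} (hs : 0 ≤ s) : HasDerivAt (LAD ε) 1 s := by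
  have h1 : HasDerivAt (fun s : ℝ => (max 0 (-s)) ^ 2) (2 * max 0 (-s) * (-1)) s :=
    (LA_hda (-s)).comp s (hasDerivAt_neg s)
  have h2 := (((hasDerivAt_id s).add_const (ε ^ 2)).add (h1.div_const (ε ^ 2)))
  have h3 : max 0 (-s) = 0 := max_eq_left (by linarith)
  rw [h3] at h2
  have h4 : (1 : ℝ) + 2 * 0 * (-1) / ε ^ 2 = 1 := by simp
  rw [h4] at h2
  exact h2

lemma LAz_cd {r ε : ℝ} (hε : 0 < ε) : ContDiff ℝ 1 (LAz r ε) := by
  unfold LAz
  refine ContDiff.div ?_ LAD_cd (fun s => (LAD_pos hε s).ne')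
  have h1 : ContDiff ℝ 1 (fun s : ℝ => 1 - s / r ^ 2) :=
    contDiff_const.sub (contDiff_id.div_const _)
  exact LA_cd.comp h1

lemma LAD_eq {ε s : ℝ} (hs : 0 ≤ s) : LAD ε s = s + ε ^ 2 := by
  unfold LAD
  rw [max_eq_left (by linarith : -s ≤ 0)]
  simp

lemma LAz_eq {r ε s : ℝ} (hs : 0 ≤ s) :
    LAz r ε s = (max 0 (1 - s / r ^ 2)) ^ 2 / (s + ε ^ 2) := by
  unfold LAz
  rw [LAD_eq hs]

lemma LAz_deriv {r ε s : ℝ} (hε : 0 < ε) (hs : 0 ≤ s) :
    deriv (LAz r ε) s = (2 * max 0 (1 - s / r ^ 2) * (-(1 / r ^ 2)) * (s + ε ^ 2)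
      - (max 0 (1 - s / r ^ 2)) ^ 2 * 1) / (s + ε ^ 2) ^ 2 := by
  have h0 : HasDerivAt (fun s : ℝ => 1 - s / r ^ 2) (-(1 / r ^ 2)) s := by
    have := ((hasDerivAt_id s).div_const (r ^ 2)).const_sub 1
    simpa using this
  have h1 : HasDerivAt (fun s : ℝ => (max 0 (1 - s / r ^ 2)) ^ 2)
      (2 * max 0 (1 - s / r ^ 2) * (-(1 / r ^ 2))) s :=
    HasDerivAt.comp (h₂ := fun v : ℝ => (max 0 v) ^ 2) s (LA_hda (1 - s / r ^ 2)) h0
  have h2 := h1.div (LAD_hd (ε := ε) hs) (LAD_pos hε s).ne'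
  have h3 := h2.deriv
  rw [LAD_eq hs] at h3
  exact h3

/-- the pointwise inequality with real numbers -/
lemma LA_ineq {s ρ m I h ε r P e : ℝ} (hε : 0 < ε) (hr : 0 < r) (hs : 0 ≤ s)
    (hρs : ρ ≤ s) (hI : I ^ 2 ≤ h ^ 2 * (s - ρ)) (hP : P = s + ε ^ 2)
    (he : m * ρ / P ≤ e) :
    m ^ 2 * (2 * ε ^ 2 / P ^ 2)
      ≤ 2 * (m ^ 2 / P) + 2 * ((2 * m * (-(1 / r ^ 2)) * P - m ^ 2 * 1) / P ^ 2) * ρ
        + m ^ 2 / P * I + 1 / 8 * (m ^ 2 * h ^ 2) + 4 / r ^ 2 * e := by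
  have hP0 : 0 < P := by rw [hP]; positivity
  have h1 : |I * P| ≤ 2 * (s - ρ) + h ^ 2 * P ^ 2 / 8 := by
    have hw : 0 ≤ s - ρ := by linarith
    apply abs_le_of_sq_le_sq
    · have h2 : (I * P) ^ 2 ≤ h ^ 2 * (s - ρ) * P ^ 2 := by
        rw [mul_pow]
        exact mul_le_mul_of_nonneg_right hI (sq_nonneg _)
      nlinarith [sq_nonneg (2 * (s - ρ) - h ^ 2 * P ^ 2 / 8)]
    · positivity
  have h2 : 0 ≤ m ^ 2 * ((2 * (s - ρ) + h ^ 2 * P ^ 2 / 8 + I * P) / P ^ 2) := by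
    have := (abs_le.1 h1).1
    apply mul_nonneg (sq_nonneg _)
    apply div_nonneg _ (sq_nonneg _)
    linarith
  have h3 : 0 ≤ 4 / r ^ 2 * (e - m * ρ / P) := by
    apply mul_nonneg (by positivity)
    linarith
  have h4 : 2 * (m ^ 2 / P) + 2 * ((2 * m * (-(1 / r ^ 2)) * P - m ^ 2 * 1) / P ^ 2) * ρ
        + m ^ 2 / P * I + 1 / 8 * (m ^ 2 * h ^ 2) + 4 / r ^ 2 * e
        - m ^ 2 * (2 * ε ^ 2 / P ^ 2)
      = m ^ 2 * ((2 * (s - ρ) + h ^ 2 * P ^ 2 / 8 + I * P) / P ^ 2)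
        + 4 / r ^ 2 * (e - m * ρ / P) := by
    have hse : ε ^ 2 = P - s := by linarith
    rw [hse]
    field_simp
    ring
  linarith

theorem hLA (hPR : _root_.Helper32.CL.StPR) : StLA := by
  intro N M _ _ _ F hF t r ε y ht hr hε
  obtain ⟨-, hy⟩ := hPR 2 N M F hF t ht
  obtain ⟨ρ, hρ, -, hζ⟩ := hy y
  -- continuity
  have hc : Continuous fun q => F q t - y := by
    have h1 := (hζ (fun _ => 1) contDiff_const).1.continuous
    simpa using h1
  have hfx : fx F y r ε t = fun q => LAz r ε (‖F q t - y‖ ^ 2) • (F q t - y) := by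
    funext q
    rw [LAz_eq (sq_nonneg _)]
    rfl
  obtain ⟨hz1, hz2⟩ := hζ (LAz r ε) (LAz_cd hε)
  have hout : ∀ q, q ∉ bl F t y r → max 0 (1 - ‖F q t - y‖ ^ 2 / r ^ 2) = 0 := by
    intro q hq
    have h1 : r ≤ ‖F q t - y‖ := by
      by_contra hcon
      exact hq (lt_of_not_ge hcon)
    apply max_eq_left
    have h2 : 1 ≤ ‖F q t - y‖ ^ 2 / r ^ 2 := by
      rw [one_le_div (by positivity)]
      exact pow_le_pow_left₀ hr.le h1 2
    linarith
  have hm0 : ∀ q, 0 ≤ max 0 (1 - ‖F q t - y‖ ^ 2 / r ^ 2) := fun q => le_max_left _ _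
  have hm1 : ∀ q, max 0 (1 - ‖F q t - y‖ ^ 2 / r ^ 2) ≤ 1 := fun q => by
    apply max_le (by norm_num)
    have : 0 ≤ ‖F q t - y‖ ^ 2 / r ^ 2 := by positivity
    linarith
  refine ⟨?_, ?_, ?_, ?_⟩
  · rw [hfx]; exact hz1
  · unfold ct
    exact (continuous_const.max (continuous_const.sub ((hc.norm.pow 2).div_const _))).pow 2
  · intro q
    refine ⟨sq_nonneg _, ?_, ?_⟩
    · unfold ct
      exact pow_le_one₀ (hm0 q) (hm1 q)
    · intro hq
      unfold ct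
      rw [hout q hq]
      norm_num
  · intro q
    obtain ⟨hρ0, hρs, hρI⟩ := hρ q
    have hs : 0 ≤ ‖F q t - y‖ ^ 2 := sq_nonneg _
    have he : max 0 (1 - ‖F q t - y‖ ^ 2 / r ^ 2) * ρ q / (‖F q t - y‖ ^ 2 + ε ^ 2)
        ≤ indicator (bl F t y r) (1 : M → ℝ) q := by
      by_cases hq : q ∈ bl F t y r
      · rw [indicator_of_mem hq]
        have hP : 0 < ‖F q t - y‖ ^ 2 + ε ^ 2 := by positivity
        show _ ≤ (1 : ℝ)
        rw [div_le_one hP]
        have h1 : max 0 (1 - ‖F q t - y‖ ^ 2 / r ^ 2) * ρ q ≤ 1 * ρ q :=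
          mul_le_mul_of_nonneg_right (hm1 q) hρ0
        have h2 : 0 < ε ^ 2 := by positivity
        linarith
      · rw [indicator_of_notMem hq, hout q hq]
        simp
    have key := LA_ineq (m := max 0 (1 - ‖F q t - y‖ ^ 2 / r ^ 2)) hε hr hs hρs hρI rfl he
    rw [hfx]
    have hd := hz2 q
    rw [LAz_eq hs, LAz_deriv hε hs] at hd
    have hin : inner ℝ (HH (n := 2) F q t) (LAz r ε (‖F q t - y‖ ^ 2) • (F q t - y))
        = (max 0 (1 - ‖F q t - y‖ ^ 2 / r ^ 2)) ^ 2 / (‖F q t - y‖ ^ 2 + ε ^ 2)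
          * inner ℝ (HH (n := 2) F q t) (F q t - y) := by
      rw [inner_smul_right, LAz_eq hs]
    rw [hd]
    show _ ≤ _ + inner ℝ (HH (n := 2) F q t) (LAz r ε (‖F q t - y‖ ^ 2) • (F q t - y)) + _ + _
    rw [hin]
    have hcast : ((2 : ℕ) : ℝ) = 2 := by norm_num
    rw [hcast]
    unfold ct
    linarith [key]

end Pool.Agent.Helper40.CL
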