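import Pool.Agent.Helper32.CL.St3

/-!
Module MW of project CL (MP_b2fa09_gt): the Michael-Simon inequality for `w`.
-/

set_option autoImplicit false

namespace Pool.Agent.Helper40.CL

open _root_.Pool.Agent.Helper35.CL _root_.Helper32.CL _root_.Helper35.PI _root_.Helper35.PI2
open scoped ContDiff Manifold Topology ENNReal BigOperators
open MeasureTheory Set Filter

/-- Cauchy-Schwarz -/
lemma MW_cs {M : Type} [MeasurableSpace M] (μ : Measure M) (f g : M → ℝ)
    (hf : Integrable f μ) (hg : Integrable g μ)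
    (hfg : Integrable (fun q => Real.sqrt (f q) * Real.sqrt (g q)) μ)
    (hf0 : ∀ q, 0 ≤ f q) (hg0 : ∀ q, 0 ≤ g q) :
    (∫ q, Real.sqrt (f q) * Real.sqrt (g q) ∂μ) ^ 2 ≤ (∫ q, f q ∂μ) * ∫ q, g q ∂μ := by
  set I := ∫ q, Real.sqrt (f q) * Real.sqrt (g q) ∂μ with hI
  set A := ∫ q, f q ∂μ with hA
  set B := ∫ q, g q ∂μ with hB
  have key : ∀ x : ℝ, 0 ≤ A * (x * x) + (-2 * I) * x + B := by
    intro x
    have h1 : A * (x * x) + (-2 * I) * x + B
        = ∫ q, (x * Real.sqrt (f q) - Real.sqrt (g q)) ^ 2 ∂μ := by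
      have h2 : ∀ q, (x * Real.sqrt (f q) - Real.sqrt (g q)) ^ 2
          = (x * x) * f q + (-2 * x) * (Real.sqrt (f q) * Real.sqrt (g q)) + g q := by
        intro q
        have e1 := Real.sq_sqrt (hf0 q)
        have e2 := Real.sq_sqrt (hg0 q)
        have : (x * Real.sqrt (f q) - Real.sqrt (g q)) ^ 2
          = (x * x) * Real.sqrt (f q) ^ 2 + (-2 * x) * (Real.sqrt (f q) * Real.sqrt (g q))
            + Real.sqrt (g q) ^ 2 := by ring
        rw [this, e1, e2]
      simp_rw [h2]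
      have i1 : Integrable (fun q => (x * x) * f q) μ := hf.const_mul _
      have i2 : Integrable (fun q => (-2 * x) * (Real.sqrt (f q) * Real.sqrt (g q))) μ :=
        hfg.const_mul _
      have i3 : Integrable (fun q => (x * x) * f q
          + (-2 * x) * (Real.sqrt (f q) * Real.sqrt (g q))) μ := i1.add i2
      rw [integral_add i3 hg, integral_add i1 i2, integral_const_mul, integral_const_mul]
      rw [← hI, ← hA, ← hB]
      ring
    rw [h1]
    exact integral_nonneg fun q => sq_nonneg _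
  have h3 := discrim_le_zero key
  unfold discrim at h3
  nlinarith [h3]

theorem hMW (hMU : StMU) (hMS : StMS) (hGA : StGA) (hCN : StCN) : StMW := by
  intro N M _ _ _ _ _ _ _ _ F c χ hS t ht
  have hF : IsMCF (n := 2) F := hS.mcf
  obtain ⟨s, -, hs⟩ := hMU 2 N M F c χ hS
  obtain ⟨-, -, hint⟩ := hs t ht
  obtain ⟨hg1c, hwc, hwd, hpt, -, -⟩ := hGA N M F hF t ht
  obtain ⟨-, hHH, -, -⟩ := hCN N M F hF
  have hHc : Continuous fun q => HH (n := 2) F q t := by
    have h1 : Continuous fun q : M => ((q, t) : M × ℝ) := by fun_prop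
    have h2 := ContinuousOn.comp_continuous hHH h1 (fun q => ⟨mem_univ _, ht⟩)
    exact h2
  have hw0 : ∀ q, 0 ≤ wF F q t := fun q => sq_nonneg _
  have hg0 : ∀ q, 0 ≤ g1F F q t := fun q => (hpt q).1
  -- the two products
  have hYw : Continuous fun q => ‖HH (n := 2) F q t‖ ^ 2 * wF F q t :=
    (hHc.norm.pow 2).mul hwc
  have hs1 : Continuous fun q => Real.sqrt (wF F q t) * Real.sqrt (g1F F q t) :=
    (Real.continuous_sqrt.comp hwc).mul (Real.continuous_sqrt.comp hg1c)
  have hs2 : Continuous fun q => Real.sqrt (wF F q t)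
      * Real.sqrt (‖HH (n := 2) F q t‖ ^ 2 * wF F q t) :=
    (Real.continuous_sqrt.comp hwc).mul (Real.continuous_sqrt.comp hYw)
  have hc1 := MW_cs (muM 2 F c χ t) (fun q => wF F q t) (fun q => g1F F q t)
    (hint _ hwc).1 (hint _ hg1c).1 (hint _ hs1).1 hw0 hg0
  have hc2 := MW_cs (muM 2 F c χ t) (fun q => wF F q t)
    (fun q => ‖HH (n := 2) F q t‖ ^ 2 * wF F q t)
    (hint _ hwc).1 (hint _ hYw).1 (hint _ hs2).1 hw0
    (fun q => mul_nonneg (sq_nonneg _) (hw0 q))
  have hk : Continuous fun q => 2 * (Real.sqrt (wF F q t) * Real.sqrt (g1F F q t)) :=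
    continuous_const.mul hs1
  have hms := hMS N M F c χ hS t ht (fun q => wF F q t)
    (fun q => 2 * (Real.sqrt (wF F q t) * Real.sqrt (g1F F q t))) hwd hk hw0 ?_
  · have e : ∀ q, 2 * (Real.sqrt (wF F q t) * Real.sqrt (g1F F q t))
        + ‖HH (n := 2) F q t‖ * wF F q t
        = 2 * (Real.sqrt (wF F q t) * Real.sqrt (g1F F q t))
          + Real.sqrt (wF F q t) * Real.sqrt (‖HH (n := 2) F q t‖ ^ 2 * wF F q t) := by
      intro q
      have e1 := Real.sq_sqrt (hw0 q)
      rw [Real.sqrt_mul (sq_nonneg _), Real.sqrt_sq (norm_nonneg _)]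
      have : Real.sqrt (wF F q t) * (‖HH (n := 2) F q t‖ * Real.sqrt (wF F q t))
          = ‖HH (n := 2) F q t‖ * Real.sqrt (wF F q t) ^ 2 := by ring
      rw [this, e1]
    simp_rw [e] at hms
    rw [integral_add ((hint _ hs1).1.const_mul 2) (hint _ hs2).1, integral_const_mul] at hms
    set S1 := ∫ q, Real.sqrt (wF F q t) * Real.sqrt (g1F F q t) ∂muM 2 F c χ t with hS1
    set S2 := ∫ q, Real.sqrt (wF F q t) * Real.sqrt (‖HH (n := 2) F q t‖ ^ 2 * wF F q t)
      ∂muM 2 F c χ t with hS2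
    set W := ∫ q, wF F q t ∂muM 2 F c χ t with hW
    set G := ∫ q, g1F F q t ∂muM 2 F c χ t with hG
    set V := ∫ q, ‖HH (n := 2) F q t‖ ^ 2 * wF F q t ∂muM 2 F c χ t with hV
    have h1 : (2 * S1 + S2) ^ 2 ≤ 8 * S1 ^ 2 + 2 * S2 ^ 2 := by
      nlinarith [sq_nonneg (2 * S1 - S2)]
    have h2 : 4 * W * (4 * G + V) = 16 * (W * G) + 4 * (W * V) := by ring
    rw [h2]
    linarith
  · intro q
    have h1 := (hpt q).2
    have h2 : 0 ≤ 2 * (Real.sqrt (wF F q t) * Real.sqrt (g1F F q t)) := by positivity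
    refine le_of_sq_le_sq ?_ h2
    have h3 : (2 * (Real.sqrt (wF F q t) * Real.sqrt (g1F F q t))) ^ 2
        = 4 * (Real.sqrt (wF F q t) ^ 2 * Real.sqrt (g1F F q t) ^ 2) := by ring
    rw [h3, Real.sq_sqrt (hw0 q), Real.sq_sqrt (hg0 q)]
    exact h1

end Pool.Agent.Helper40.CL
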